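import Mathlib

/-!
# Finite loopless multigraphs, cuts and perfect matchings
-/

namespace Pool.Agent.H1FR

open Finset
open scoped Classical

/-- A multigraph without loops: the edge `e` joins the two distinct vertices in `ends e`;
parallel edges are allowed. -/
structure MGraph (V E : Type*) where
  /-- the two ends of an edge -/
  ends : E → Sym2 V
  /-- no edge is a loop -/
  not_loop : ∀ e, ¬ (ends e).IsDiag

namespace MGraph

variable {V E : Type*} [Fintype V] [Fintype E] (G : MGraph V E)

/-- The edges of `M` at the vertex `v`. -/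
noncomputable def at_ (M : Finset E) (v : V) : Finset E := M.filter (fun e => v ∈ G.ends e)

/-- Every vertex is an end of exactly three edges. -/
def Cubic : Prop := ∀ v, (G.at_ univ v).card = 3

/-- No edge is a bridge: the two ends of an edge `e` are joined by a walk that avoids `e`. -/
def Bridgeless : Prop :=
  ∀ e a b, G.ends e = s(a, b) →
    Relation.ReflTransGen (fun x y => ∃ f, f ≠ e ∧ G.ends f = s(x, y)) a b

/-- `M` is a perfect matching: every vertex is an end of exactly one edge of `M`. -/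
def IsPM (M : Finset E) : Prop := ∀ v, (G.at_ M v).card = 1

/-- The edge cut of `C`: the edges with one end in `C` and the other end outside `C`. -/
noncomputable def cut (C : Finset V) : Finset E :=
  univ.filter (fun e => ∃ a b, G.ends e = s(a, b) ∧ a ∈ C ∧ b ∉ C)

/-- The edges with both ends in `C`. -/
noncomputable def inner (C : Finset V) : Finset E :=
  univ.filter (fun e => ∀ v ∈ G.ends e, v ∈ C)

variable {G}

lemma mem_at {M : Finset E} {v : V} {e : E} : e ∈ G.at_ M v ↔ e ∈ M ∧ v ∈ G.ends e := by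
  simp [at_]

lemma mem_cut {C : Finset V} {e : E} :
    e ∈ G.cut C ↔ ∃ a b, G.ends e = s(a, b) ∧ a ∈ C ∧ b ∉ C := by
  simp [cut]

lemma mem_inner {C : Finset V} {e : E} : e ∈ G.inner C ↔ ∀ v ∈ G.ends e, v ∈ C := by
  simp [inner]

lemma exists_ends (G : MGraph V E) (e : E) : ∃ a b, a ≠ b ∧ G.ends e = s(a, b) := by
  have h1 := G.not_loop e
  generalize hs : G.ends e = s at h1
  induction s with
  | h a b =>
    refine ⟨a, b, ?_, rfl⟩
    intro h
    apply h1
    rw [h]
    exact Sym2.mk_isDiag_iff.2 rfl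

lemma cut_compl (C : Finset V) : G.cut Cᶜ = G.cut C := by
  ext e
  rw [mem_cut, mem_cut]
  constructor
  · rintro ⟨a, b, h, ha, hb⟩
    refine ⟨b, a, by rw [h, Sym2.eq_swap], ?_, ?_⟩
    · simpa using hb
    · simpa using ha
  · rintro ⟨a, b, h, ha, hb⟩
    refine ⟨b, a, by rw [h, Sym2.eq_swap], ?_, ?_⟩
    · simpa using hb
    · simpa using ha

lemma card_ends (e : E) (C : Finset V) :
    (C.filter (fun v => v ∈ G.ends e)).card =
      (if e ∈ G.inner C then 2 else 0) + (if e ∈ G.cut C then 1 else 0) := by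
  obtain ⟨a, b, hab, he⟩ := G.exists_ends e
  have h1 : C.filter (fun v => v ∈ G.ends e) = C.filter (fun v => v = a ∨ v = b) := by
    refine Finset.filter_congr fun v _ => ?_
    rw [he, Sym2.mem_iff]
  have h2 : e ∈ G.inner C ↔ a ∈ C ∧ b ∈ C := by
    rw [mem_inner, he]
    constructor
    · intro h
      exact ⟨h a (Sym2.mem_mk_left a b), h b (Sym2.mem_mk_right a b)⟩
    · rintro ⟨h3, h4⟩ v hv
      rcases Sym2.mem_iff.1 hv with rfl | rfl
      · exact h3
      · exact h4
  have h3 : e ∈ G.cut C ↔ (a ∈ C ∧ b ∉ C) ∨ (b ∈ C ∧ a ∉ C) := by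
    rw [mem_cut]
    constructor
    · rintro ⟨x, y, hxy, hx, hy⟩
      rw [he] at hxy
      rcases Sym2.eq_iff.1 hxy with ⟨rfl, rfl⟩ | ⟨rfl, rfl⟩
      · exact Or.inl ⟨hx, hy⟩
      · exact Or.inr ⟨hx, hy⟩
    · rintro (⟨hx, hy⟩ | ⟨hx, hy⟩)
      · exact ⟨a, b, he, hx, hy⟩
      · exact ⟨b, a, by rw [he, Sym2.eq_swap], hx, hy⟩
  rw [h1]
  by_cases ha : a ∈ C <;> by_cases hb : b ∈ C
  · have : C.filter (fun v => v = a ∨ v = b) = {a, b} := by
      ext v
      simp only [mem_filter, mem_insert, mem_singleton]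
      constructor
      · exact fun h => h.2
      · rintro (rfl | rfl)
        · exact ⟨ha, Or.inl rfl⟩
        · exact ⟨hb, Or.inr rfl⟩
    rw [this, Finset.card_pair hab, if_pos (h2.2 ⟨ha, hb⟩), if_neg]
    rw [h3]
    rintro (⟨_, h⟩ | ⟨_, h⟩)
    · exact h hb
    · exact h ha
  · have : C.filter (fun v => v = a ∨ v = b) = {a} := by
      ext v
      simp only [mem_filter, mem_singleton]
      constructor
      · rintro ⟨h, rfl | rfl⟩
        · rfl
        · exact absurd h hb
      · rintro rfl
        exact ⟨ha, Or.inl rfl⟩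
    rw [this, Finset.card_singleton, if_neg, if_pos (h3.2 (Or.inl ⟨ha, hb⟩))]
    rw [h2]
    exact fun h => hb h.2
  · have : C.filter (fun v => v = a ∨ v = b) = {b} := by
      ext v
      simp only [mem_filter, mem_singleton]
      constructor
      · rintro ⟨h, rfl | rfl⟩
        · exact absurd h ha
        · rfl
      · rintro rfl
        exact ⟨hb, Or.inr rfl⟩
    rw [this, Finset.card_singleton, if_neg, if_pos (h3.2 (Or.inr ⟨hb, ha⟩))]
    rw [h2]
    exact fun h => ha h.1
  · have : C.filter (fun v => v = a ∨ v = b) = ∅ := by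
      rw [Finset.filter_eq_empty_iff]
      rintro v hv (rfl | rfl)
      · exact ha hv
      · exact hb hv
    rw [this, Finset.card_empty, if_neg, if_neg]
    · rw [h3]
      rintro (⟨h, _⟩ | ⟨h, _⟩)
      · exact ha h
      · exact hb h
    · rw [h2]
      exact fun h => ha h.1

/-- The handshake identity with weights. -/
lemma handshake {R : Type*} [CommSemiring R] (w : E → R) (M : Finset E) (C : Finset V) :
    ∑ v ∈ C, ∑ e ∈ G.at_ M v, w e =
      2 * ∑ e ∈ M ∩ G.inner C, w e + ∑ e ∈ M ∩ G.cut C, w e := by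
  have h1 : ∀ v ∈ C, ∑ e ∈ G.at_ M v, w e = ∑ e ∈ M, if v ∈ G.ends e then w e else 0 := by
    intro v _
    rw [at_, Finset.sum_filter]
  rw [Finset.sum_congr rfl h1, Finset.sum_comm]
  have h2 : ∀ e ∈ M, ∑ v ∈ C, (if v ∈ G.ends e then w e else 0) =
      2 * (if e ∈ G.inner C then w e else 0) + (if e ∈ G.cut C then w e else 0) := by
    intro e _
    rw [← Finset.sum_filter, Finset.sum_const, card_ends, nsmul_eq_mul]
    push_cast
    split_ifs <;> push_cast <;> ring
  rw [Finset.sum_congr rfl h2, Finset.sum_add_distrib, ← Finset.mul_sum, ← Finset.sum_filter,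
    ← Finset.sum_filter, Finset.filter_mem_eq_inter, Finset.filter_mem_eq_inter]

lemma card_handshake (M : Finset E) (C : Finset V) :
    ∑ v ∈ C, (G.at_ M v).card = 2 * (M ∩ G.inner C).card + (M ∩ G.cut C).card := by
  have h := G.handshake (fun _ => (1 : ℕ)) M C
  simpa using h

lemma IsPM.card_eq {M : Finset E} (h : G.IsPM M) (C : Finset V) :
    C.card = 2 * (M ∩ G.inner C).card + (M ∩ G.cut C).card := by
  rw [← card_handshake, Finset.sum_congr rfl (fun v _ => h v)]
  simp

lemma Cubic.card_eq (h : G.Cubic) (C : Finset V) :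
    3 * C.card = 2 * (G.inner C).card + (G.cut C).card := by
  have h1 := G.card_handshake univ C
  have h2 : ∑ v ∈ C, (G.at_ univ v).card = C.card * 3 := by
    rw [Finset.sum_congr rfl (fun v _ => h v)]
    simp
  rw [h2, Finset.univ_inter, Finset.univ_inter] at h1
  omega

lemma IsPM.odd_cut {M : Finset E} (h : G.IsPM M) {C : Finset V} (hC : Odd C.card) :
    Odd (M ∩ G.cut C).card := by
  have h1 := h.card_eq C
  rw [Nat.odd_iff] at hC ⊢
  omega

lemma Cubic.odd_cut (h : G.Cubic) {C : Finset V} (hC : Odd C.card) : Odd (G.cut C).card := by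
  have h1 := h.card_eq C
  rw [Nat.odd_iff] at hC ⊢
  omega

lemma IsPM.cut_le {M : Finset E} (h : G.IsPM M) {C : Finset V} (hC : G.cut C ⊆ M) :
    (G.cut C).card ≤ C.card := by
  have h1 := h.card_eq C
  rw [Finset.inter_eq_right.2 hC] at h1
  omega

lemma cut_univ : G.cut univ = ∅ := by
  ext e
  simp [mem_cut]

lemma inner_univ : G.inner univ = univ := by
  ext e
  simp [mem_inner]

lemma IsPM.card_univ {M : Finset E} (h : G.IsPM M) : Fintype.card V = 2 * M.card := by
  have h1 := h.card_eq univ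
  rw [cut_univ, inner_univ] at h1
  simpa using h1

lemma Bridgeless.cut_ne_one (h : G.Bridgeless) (C : Finset V) : (G.cut C).card ≠ 1 := by
  intro h1
  obtain ⟨e, he⟩ := Finset.card_eq_one.1 h1
  have he' : e ∈ G.cut C := by rw [he]; simp
  obtain ⟨a, b, hab, ha, hb⟩ := mem_cut.1 he'
  have h2 := h e a b hab
  apply hb
  clear hab hb
  induction h2 with
  | refl => exact ha
  | tail _ hxy ih =>
    obtain ⟨f, hf, hfe⟩ := hxy
    by_contra hy
    have h3 : f ∈ G.cut C := mem_cut.2 ⟨_, _, hfe, ih, hy⟩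
    rw [he, Finset.mem_singleton] at h3
    exact hf h3

lemma three_le_cut (hc : G.Cubic) (hb : G.Bridgeless) {C : Finset V} (hC : Odd C.card) :
    3 ≤ (G.cut C).card := by
  have h1 := hc.odd_cut hC
  have h2 := hb.cut_ne_one C
  rw [Nat.odd_iff] at h1
  omega

lemma Cubic.card_at_sdiff (h : G.Cubic) {M : Finset E} (hM : G.IsPM M) (v : V) :
    (G.at_ (univ \ M) v).card = 2 := by
  have h1 : G.at_ univ v = G.at_ M v ∪ G.at_ (univ \ M) v := by
    ext e
    simp only [mem_at, Finset.mem_union, Finset.mem_sdiff, Finset.mem_univ, true_and]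
    tauto
  have h2 : Disjoint (G.at_ M v) (G.at_ (univ \ M) v) := by
    rw [Finset.disjoint_left]
    intro e h3 h4
    rw [mem_at] at h3 h4
    exact (Finset.mem_sdiff.1 h4.1).2 h3.1
  have h3 := h v
  rw [h1, Finset.card_union_of_disjoint h2, hM v] at h3
  omega

end MGraph

end Pool.Agent.H1FR
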