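import Mathlib
import Pool.Agent.Lib.H1FR.Basic
import Pool.Agent.Lib.Helper17.BFE.Edm

/-!
# Cheap perfect matchings from points of the perfect matching polytope
-/

namespace Pool.Agent.H1FR

open Finset Pool.Agent.Helper4.BF Pool.Agent.Helper17.BFE
open scoped Classical

namespace MGraph

variable {V E : Type*} [Fintype V] [Fintype E] {G : MGraph V E}

/-- The set of the two ends of an edge. -/
noncomputable def pr (G : MGraph V E) (e : E) : Finset V := univ.filter (fun v => v ∈ G.ends e)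

lemma mem_pr {e : E} {v : V} : v ∈ G.pr e ↔ v ∈ G.ends e := by simp [pr]

lemma card_pr (e : E) : (G.pr e).card = 2 := by
  have h := G.card_ends e univ
  rw [cut_univ, inner_univ] at h
  simpa [pr] using h

/-- A perfect matching of cost at most that of a point of the perfect matching polytope. -/
theorem exists_pm (G : MGraph V E) (w : E → ℝ) (hw : ∀ e, 0 < w e)
    (hv : ∀ v, ∑ e ∈ G.at_ univ v, w e = 1)
    (hc : ∀ C : Finset V, Odd C.card → 1 ≤ ∑ e ∈ G.cut C, w e) (c : E → ℝ) (hc0 : ∀ e, 0 ≤ c e) :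
    ∃ M, G.IsPM M ∧ ∑ e ∈ M, c e ≤ ∑ e, w e * c e := by
  rcases isEmpty_or_nonempty E with hE | hE
  · refine ⟨∅, fun v => ?_, by simp⟩
    have h1 := hv v
    rw [Finset.eq_empty_of_isEmpty (G.at_ univ v), Finset.sum_empty] at h1
    exact absurd h1 (by norm_num)
  set P : Finset (Finset V) := univ.image G.pr with hP
  have hPe : ∀ π ∈ P, ∃ e, G.pr e = π ∧ ∀ f, G.pr f = π → c e ≤ c f := by
    intro π hπ
    obtain ⟨e0, _, he0⟩ := Finset.mem_image.1 hπ
    obtain ⟨e, he, hmin⟩ := Finset.exists_min_image (univ.filter (fun e => G.pr e = π)) c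
      ⟨e0, by simp [he0]⟩
    refine ⟨e, by simpa using he, fun f hf => hmin f (by simpa using hf)⟩
  choose! r hr1 hr2 using hPe
  set z : Finset V → ℝ := fun π => ∑ e ∈ univ.filter (fun e => G.pr e = π), w e with hz
  have hzpos : ∀ π ∈ P, 0 < z π := by
    intro π hπ
    obtain ⟨e0, _, he0⟩ := Finset.mem_image.1 hπ
    refine Finset.sum_pos (fun e _ => hw e) ⟨e0, by simp [he0]⟩
  have hP2 : ∀ π ∈ P, π.card = 2 := by
    intro π hπ
    obtain ⟨e0, _, he0⟩ := Finset.mem_image.1 hπ
    rw [← he0]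
    exact card_pr e0
  -- sums over pairs are sums over edges
  have hfib : ∀ (Q : Finset V → Prop) [DecidablePred Q] (g : Finset V → ℝ),
      ∑ π ∈ P.filter Q, z π * g π = ∑ e ∈ univ.filter (fun e => Q (G.pr e)), w e * g (G.pr e) := by
    intro Q _ g
    have h1 : ∀ e ∈ univ.filter (fun e => Q (G.pr e)), G.pr e ∈ P.filter Q := by
      intro e he
      rw [Finset.mem_filter] at he ⊢
      exact ⟨Finset.mem_image_of_mem _ (Finset.mem_univ _), he.2⟩
    rw [← Finset.sum_fiberwise_of_maps_to h1]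
    refine Finset.sum_congr rfl fun π hπ => ?_
    rw [hz, Finset.sum_mul]
    refine Finset.sum_congr ?_ fun e he => ?_
    · ext e
      simp only [Finset.mem_filter, Finset.mem_univ, true_and]
      constructor
      · intro h
        exact ⟨by rw [h]; exact (Finset.mem_filter.1 hπ).2, h⟩
      · exact fun h => h.2
    · rw [(Finset.mem_filter.1 he).2]
  have hfib1 : ∀ (Q : Finset V → Prop) [DecidablePred Q],
      ∑ π ∈ P.filter Q, z π = ∑ e ∈ univ.filter (fun e => Q (G.pr e)), w e := by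
    intro Q _
    have := hfib Q (fun _ => 1)
    simpa using this
  have hdeg : ∀ v, ∑ π ∈ P.filter (fun π => v ∈ π), z π ≤ 1 := by
    intro v
    rw [hfib1]
    refine le_of_eq ?_
    rw [← hv v]
    refine Finset.sum_congr ?_ fun _ _ => rfl
    ext e
    simp [mem_at, mem_pr]
  have hinner : ∀ S : Finset V, univ.filter (fun e => G.pr e ⊆ S) = G.inner S := by
    intro S
    ext e
    rw [mem_inner]
    simp only [Finset.mem_filter, Finset.mem_univ, true_and]
    constructor
    · intro h v hv'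
      exact h (mem_pr.2 hv')
    · intro h v hv'
      exact h v (mem_pr.1 hv')
  have hodd : ∀ S : Finset V, Odd S.card →
      2 * ∑ π ∈ P.filter (fun π => π ⊆ S), z π ≤ (S.card : ℝ) - 1 := by
    intro S hS
    rw [hfib1, hinner]
    have h1 := G.handshake w univ S
    rw [Finset.sum_congr rfl (fun v _ => hv v), Finset.univ_inter, Finset.univ_inter] at h1
    simp only [Finset.sum_const, nsmul_eq_mul, mul_one] at h1
    have h2 := hc S hS
    linarith
  set B : ℝ := ∑ e, c e with hB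
  set B' : ℝ := ∑ e, w e * c e with hB'
  have hB0 : 0 ≤ B := Finset.sum_nonneg fun e _ => hc0 e
  have hB'0 : 0 ≤ B' := Finset.sum_nonneg fun e _ => mul_nonneg (hw e).le (hc0 e)
  have hcB : ∀ e, c e ≤ B := fun e => Finset.single_le_sum (fun e _ => hc0 e) (Finset.mem_univ e)
  set K : ℝ := B + 2 * B' + 1 with hK
  set w' : Finset V → ℝ := fun π => if π ∈ P then K - c (r π) else 0 with hw'
  have hw'0 : ∀ π, 0 ≤ w' π := by
    intro π
    simp only [hw']
    split_ifs
    · have := hcB (r π)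
      linarith
    · exact le_rfl
  obtain ⟨N, hN, hle⟩ := edmonds_dual P hP2 z hzpos hdeg hodd w' hw'0
  obtain ⟨hNP, hNm⟩ := mem_matchings.1 hN
  -- the left side
  have hsumw : 2 * ∑ e, w e = (Fintype.card V : ℝ) := by
    have h1 := G.handshake w univ univ
    rw [Finset.sum_congr rfl (fun v _ => hv v), Finset.univ_inter, Finset.univ_inter, cut_univ,
      inner_univ] at h1
    simp only [Finset.sum_const, nsmul_eq_mul, mul_one, Finset.sum_empty, add_zero,
      Finset.card_univ] at h1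
    exact h1.symm
  have hL : K * ∑ e, w e - B' ≤ ∑ π ∈ P, z π * w' π := by
    have h1 := hfib (fun _ => True) w'
    simp only [Finset.filter_true] at h1
    rw [h1, Finset.mul_sum, hB', ← Finset.sum_sub_distrib]
    refine Finset.sum_le_sum fun e _ => ?_
    have h2 : G.pr e ∈ P := Finset.mem_image_of_mem _ (Finset.mem_univ _)
    simp only [hw', if_pos h2]
    have h3 := hr2 _ h2 e rfl
    nlinarith [hw e]
  have hR : ∑ π ∈ N, w' π = K * N.card - ∑ π ∈ N, c (r π) := by
    have h1 : ∀ π ∈ N, w' π = K - c (r π) := by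
      intro π hπ
      simp only [hw', if_pos (hNP hπ)]
    rw [Finset.sum_congr rfl h1, Finset.sum_sub_distrib]
    simp only [Finset.sum_const, nsmul_eq_mul]
    ring
  have hN2 : (N.biUnion id).card = 2 * N.card := by
    rw [Finset.card_biUnion]
    · have h1 : ∀ π ∈ N, (id π : Finset V).card = 2 := fun π hπ => hP2 π (hNP hπ)
      rw [Finset.sum_congr rfl h1]
      simp [mul_comm]
    · intro a ha b hb hab
      exact hNm a ha b hb hab
  have hNle : 2 * N.card ≤ Fintype.card V := by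
    rw [← hN2]
    exact Finset.card_le_univ _
  have hrsum0 : 0 ≤ ∑ π ∈ N, c (r π) := Finset.sum_nonneg fun π _ => hc0 _
  have hNeq : 2 * N.card = Fintype.card V := by
    by_contra hne
    have h1 : 2 * N.card + 1 ≤ Fintype.card V := by omega
    have h2 : 2 * (N.card : ℝ) + 1 ≤ Fintype.card V := by exact_mod_cast h1
    have h3 : K * ∑ e, w e - B' ≤ K * N.card - ∑ π ∈ N, c (r π) := by
      rw [← hR]
      exact hL.trans hle
    have h4 : K * (Fintype.card V : ℝ) = 2 * (K * ∑ e, w e) := by rw [← hsumw]; ring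
    have hKpos : 0 < K := by linarith
    have h5 : K * (2 * (N.card : ℝ) + 1) ≤ K * (Fintype.card V : ℝ) :=
      mul_le_mul_of_nonneg_left h2 hKpos.le
    nlinarith
  have hcost : ∑ π ∈ N, c (r π) ≤ B' := by
    have h3 : K * ∑ e, w e - B' ≤ K * N.card - ∑ π ∈ N, c (r π) := by
      rw [← hR]
      exact hL.trans hle
    have h4 : 2 * (N.card : ℝ) = 2 * ∑ e, w e := by
      rw [hsumw]
      exact_mod_cast hNeq
    have h5 : (N.card : ℝ) = ∑ e, w e := by linarith
    rw [h5] at h3
    linarith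
  have hcover : ∀ v, ∃ π ∈ N, v ∈ π := by
    intro v
    have h1 : N.biUnion id = univ := by
      rw [← Finset.card_eq_iff_eq_univ, hN2, hNeq]
    have h2 : v ∈ N.biUnion id := by rw [h1]; simp
    obtain ⟨π, hπ, hvπ⟩ := Finset.mem_biUnion.1 h2
    exact ⟨π, hπ, hvπ⟩
  refine ⟨N.image r, ?_, ?_⟩
  · intro v
    obtain ⟨π, hπ, hvπ⟩ := hcover v
    rw [Finset.card_eq_one]
    refine ⟨r π, ?_⟩
    ext e
    rw [mem_at, Finset.mem_image, Finset.mem_singleton]
    constructor
    · rintro ⟨⟨ρ, hρ, rfl⟩, hve⟩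
      have h1 : v ∈ ρ := by
        rw [← hr1 ρ (hNP hρ)]
        exact mem_pr.2 hve
      have h2 : ρ = π := by
        by_contra hne
        exact (Finset.disjoint_left.1 (hNm ρ hρ π hπ hne)) h1 hvπ
      rw [h2]
    · rintro rfl
      refine ⟨⟨π, hπ, rfl⟩, ?_⟩
      rw [← mem_pr, hr1 π (hNP hπ)]
      exact hvπ
  · refine le_trans (le_of_eq ?_) hcost
    rw [Finset.sum_image]
    intro a ha b hb hab
    rw [← hr1 a (hNP ha), ← hr1 b (hNP hb), hab]

/-- The same, with a family of odd cuts of weight one crossed exactly once. -/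
theorem exists_pm_tight (G : MGraph V E) (w : E → ℝ) (hw : ∀ e, 0 < w e)
    (hv : ∀ v, ∑ e ∈ G.at_ univ v, w e = 1)
    (hc : ∀ C : Finset V, Odd C.card → 1 ≤ ∑ e ∈ G.cut C, w e) (c : E → ℝ) (hc0 : ∀ e, 0 ≤ c e)
    (T : Finset (Finset V)) (hT : ∀ C ∈ T, Odd C.card) (hT1 : ∀ C ∈ T, ∑ e ∈ G.cut C, w e = 1) :
    ∃ M, G.IsPM M ∧ ∑ e ∈ M, c e ≤ ∑ e, w e * c e ∧ ∀ C ∈ T, (M ∩ G.cut C).card = 1 := by
  set A : ℝ := ∑ e, w e * c e with hA
  have hA0 : 0 ≤ A := Finset.sum_nonneg fun e _ => mul_nonneg (hw e).le (hc0 e)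
  set L : ℝ := A + 1 with hL
  obtain ⟨M, hM, hle⟩ := G.exists_pm w hw hv hc
    (fun e => c e + L * ∑ C ∈ T, if e ∈ G.cut C then (1:ℝ) else 0) (by
      intro e
      refine add_nonneg (hc0 e) (mul_nonneg (by linarith) (Finset.sum_nonneg fun C _ => ?_))
      split_ifs <;> norm_num)
  have h1 : ∑ e, w e * (c e + L * ∑ C ∈ T, if e ∈ G.cut C then (1:ℝ) else 0) = A + L * T.card := by
    have h2 : ∑ e, w e * ∑ C ∈ T, (if e ∈ G.cut C then (1:ℝ) else 0) = T.card := by
      simp only [Finset.mul_sum]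
      rw [Finset.sum_comm]
      have h3 : ∀ C ∈ T, ∑ e, w e * (if e ∈ G.cut C then (1:ℝ) else 0) = 1 := by
        intro C hC
        simp only [mul_ite, mul_one, mul_zero]
        rw [← Finset.sum_filter, Finset.filter_mem_eq_inter, Finset.univ_inter, hT1 C hC]
      rw [Finset.sum_congr rfl h3]
      simp
    calc ∑ e, w e * (c e + L * ∑ C ∈ T, if e ∈ G.cut C then (1:ℝ) else 0)
        = ∑ e, (w e * c e + L * (w e * ∑ C ∈ T, if e ∈ G.cut C then (1:ℝ) else 0)) := by
          refine Finset.sum_congr rfl fun e _ => by ring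
      _ = A + L * T.card := by
          rw [Finset.sum_add_distrib, ← Finset.mul_sum, h2]
  have h2 : ∑ e ∈ M, (c e + L * ∑ C ∈ T, if e ∈ G.cut C then (1:ℝ) else 0) =
      ∑ e ∈ M, c e + L * ∑ C ∈ T, ((M ∩ G.cut C).card : ℝ) := by
    rw [Finset.sum_add_distrib, ← Finset.mul_sum, Finset.sum_comm]
    congr 2
    refine Finset.sum_congr rfl fun C _ => ?_
    rw [← Finset.sum_filter, Finset.filter_mem_eq_inter]
    simp
  rw [h1, h2] at hle
  have h3 : ∀ C ∈ T, 1 ≤ (M ∩ G.cut C).card := by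
    intro C hC
    have := hM.odd_cut (hT C hC)
    exact this.pos
  have hM0 : 0 ≤ ∑ e ∈ M, c e := Finset.sum_nonneg fun e _ => hc0 e
  have hLpos : 0 < L := by linarith
  have h4 : ∀ C ∈ T, (M ∩ G.cut C).card = 1 := by
    by_contra hcon
    push Not at hcon
    obtain ⟨C0, hC0, hne⟩ := hcon
    have h5 : ∑ C ∈ T, 1 < ∑ C ∈ T, (M ∩ G.cut C).card := by
      refine Finset.sum_lt_sum h3 ⟨C0, hC0, ?_⟩
      have := h3 C0 hC0
      omega
    simp only [Finset.sum_const, smul_eq_mul, mul_one] at h5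
    have h6 : (T.card : ℝ) + 1 ≤ ∑ C ∈ T, ((M ∩ G.cut C).card : ℝ) := by
      exact_mod_cast h5
    nlinarith
  refine ⟨M, hM, ?_, h4⟩
  have h5 : ∑ C ∈ T, ((M ∩ G.cut C).card : ℝ) = T.card := by
    rw [Finset.sum_congr rfl (fun C hC => by rw [h4 C hC])]
    simp
  rw [h5] at hle
  linarith

end MGraph

end Pool.Agent.H1FR
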